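import Pool.Agent.R596.C3Bridge
import Pool.Agent.R596.ThreeC

/-!
# No injection from the finitary partitions of an infinite set to the 3-cycles

In every model of Zermelo set theory (so in every model of ZF): if a set `a` is infinite, that is,
not in bijection with a natural number, then there is no injection from the set of all finitary
partitions of `a` to the set of all permutations of `a` with exactly three non-fixed points.
-/

namespace Pool.Agent.Results.MP_1929a6_lc.NoInjection

open FirstOrder FirstOrder.Language
open Pool.Agent.Helper672.Plain (LSet Zermelo)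
open Pool.Agent.H310Cards
open Pool.Agent.R596Part

universe u

theorem result (M : Type u) [LSet.Structure M] [Zermelo M] (a b c f : M)
    (hb : IsFinPartitionSet b a) (hc : IsThreeSet c a) (ha : ¬ IsFinite a) :
    ¬ IsInj f b c := by
  letI := Pool.Agent.Helper672.Plain.toL (M := M)
  letI : Pool.Agent.Helper672.ZFA.IsModel M := Pool.Agent.Helper672.Plain.isModel_toL
  intro hf
  obtain ⟨h, hh, hh'⟩ := Pool.Agent.H310.exists_fun
    (α := Pool.Agent.Helper672.ZFA.El b)
    (β := Pool.Agent.Helper672.ZFA.El c) hf.1 (fun x => x.2)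
    fun z hz => Pool.Agent.H310.mem_El.1 hz
  obtain ⟨d, hd, hdi, hdt⟩ := Pool.Agent.R596.exists_dec hc
  have hj := Pool.Agent.R596.int_ptEl hb
  refine Pool.Agent.R596.no_inj_three
    (f := fun r => d (h (Pool.Agent.R596.ptEl hb r)))
    (Pool.Agent.H310.not_finP (fun z => Pool.Agent.H310.mem_El) ha)
    (Pool.Agent.Helper672.ZFA.IntF.comp hd (Pool.Agent.Helper672.ZFA.IntF.comp hh hj))
    (fun r r' hrr => ?_) fun r => hdt _
  have h1 := hdi _ _ hrr
  refine Pool.Agent.R596.ptEl_inj hb (Subtype.ext ?_)
  exact hf.2 _ _ _ ((hh' _ _).1 h1) ((hh' _ _).1 rfl)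

end Pool.Agent.Results.MP_1929a6_lc.NoInjection
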